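import Pool.Agent.Q117.SP.Iso

/-!
# Graphs with nonzero signed number of 1-factorizations
-/

set_option autoImplicit false

namespace Pool.Agent.Q117.SP

open Finset Pool.Agent.W426.LE Pool.Agent.W862.LE.Abs

/-- all descriptions of the regular graph `G` have a nonzero signed number -/
def AT {V : Type} [Fintype V] (G : SimpleGraph V) (d : ℕ) : Prop :=
  ∀ (E : Type) [Fintype E] (inc : V → Fin d → E), Inc G inc → NN (Equiv.refl (Fin d)) inc ≠ 0

open Classical in
lemma at_of {V V' E D C : Type} [Fintype V] [Fintype V'] [Fintype E] [Fintype D] [Fintype C]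
    {G : SimpleGraph V} {G' : SimpleGraph V'} (φ : G ≃g G') (ρ : D ≃ C) (inc : V → D → E)
    (h : Inc G inc) (hN : NN ρ inc ≠ 0) (d : ℕ) (hd : Fintype.card D = d) : AT G' d := by
  intro E' _ inc' h'
  obtain ⟨β, τ, hβ⟩ := Inc.iso φ h h'
  exact NN_iso ρ (Equiv.refl (Fin d)) (Fintype.equivFinOfCardEq hd) inc inc' φ.toEquiv β τ hβ hN

/-- joined circulants -/
theorem at_gb (p k : ℕ) [hp : Fact p.Prime] (hp2 : p ≠ 2) (hk : k ≠ 0)
    (S R T : Finset (ZMod (p ^ k))) (hS : ∀ x ∈ S, -x ∈ S) (hR : ∀ x ∈ R, -x ∈ R)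
    (hSc : S.card + 1 = p) (hRc : R.card + 1 = p)
    (hS0 : ∀ x ∈ S, ZMod.castHom (dvd_pow_self p hk) (ZMod p) x ≠ 0)
    (hR0 : ∀ x ∈ R, ZMod.castHom (dvd_pow_self p hk) (ZMod p) x ≠ 0)
    (hT : T.Nonempty) (hTp : T.card < p) {V : Type} [Fintype V] (G : SimpleGraph V)
    (φ : BC (p ^ k) S R T ≃g G) : AT G (p - 1 + T.card) := by
  classical
  have hpp : p.Prime := hp.out
  have hn0 : NeZero (p ^ k) := ⟨pow_ne_zero _ hpp.ne_zero⟩
  have hodd : Odd p := hpp.odd_of_ne_two hp2
  have hoddn : Odd (p ^ k) := hodd.pow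
  obtain ⟨m, hm⟩ := hodd
  have h0S : (0 : ZMod (p ^ k)) ∉ S := fun h => hS0 0 h (map_zero _)
  have h0R : (0 : ZMod (p ^ k)) ∉ R := fun h => hR0 0 h (map_zero _)
  obtain ⟨σ0, hσ0⟩ := Pool.Agent.W337.LE.half (p ^ k) m hoddn S hS h0S (by omega)
  obtain ⟨σ1, hσ1⟩ := Pool.Agent.W337.LE.half (p ^ k) m hoddn R hR h0R (by omega)
  set σ : Bool → Fin m → ZMod (p ^ k) := fun b => cond b σ1 σ0 with hσ
  obtain ⟨ψ, h1, h2, h3⟩ := Pool.Agent.W337.LE.main (p ^ k) m hoddn S R T σ h0S h0R hσ0 hσ1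
  have hTc : 0 < T.card := hT.card_pos
  have ρ : DD (Fin m) T ≃ CC p (Fin (T.card - 1)) := Fintype.equivOfCardEq (by
    simp only [Fintype.card_sum, Fintype.card_prod, Fintype.card_bool, Fintype.card_fin,
      ZMod.card, Fintype.card_coe]
    omega)
  have ρ' : Option (Fin m × Bool) ≃ ZMod p := Fintype.equivOfCardEq (by
    simp only [Fintype.card_option, Fintype.card_prod, Fintype.card_bool, Fintype.card_fin,
      ZMod.card]
    omega)
  have hne : ∀ b i, ZMod.castHom (dvd_pow_self p hk) (ZMod p) (σ b i) ≠ 0 := by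
    intro b i
    cases b
    · have h4 := hσ0.mapsTo (Set.mem_univ (i, true))
      simp only [if_true] at h4
      exact hS0 _ h4
    · have h4 := hσ1.mapsTo (Set.mem_univ (i, true))
      simp only [if_true] at h4
      exact hR0 _ h4
  have hNN := sBI p k hp2 hk (Fin m) T (Fin (T.card - 1)) ρ ρ' σ (fun t : T => (t : ZMod (p ^ k)))
    hne (by rw [Fintype.card_coe]; exact hTp)
  have hcD : Fintype.card (DD (Fin m) T) = p - 1 + T.card := by
    simp only [Fintype.card_sum, Fintype.card_prod, Fintype.card_bool, Fintype.card_fin,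
      ZMod.card, Fintype.card_coe]
    omega
  exact at_of φ ρ _ ⟨ψ, h1, h2, h3⟩ hNN _ hcD

/-- the complete graph on `2 p` vertices -/
theorem at_gk (p : ℕ) (hpp : p.Prime) (hp2 : p ≠ 2) {V : Type} [Fintype V]
    (hV : Fintype.card V = 2 * p) : AT (⊤ : SimpleGraph V) (2 * p - 1) := by
  classical
  haveI hp : Fact p.Prime := ⟨hpp⟩
  haveI hn0 : NeZero p := ⟨hpp.ne_zero⟩
  have hodd : Odd p := hpp.odd_of_ne_two hp2
  have hodd' := hodd
  obtain ⟨m, hm⟩ := hodd'
  set S : Finset (ZMod p) := univ.erase 0 with hS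
  have hSc : S.card = 2 * m := by
    rw [hS, Finset.card_erase_of_mem (Finset.mem_univ _), Finset.card_univ, ZMod.card]
    omega
  have h0S : (0 : ZMod p) ∉ S := by simp [hS]
  obtain ⟨σ, hσ⟩ := Pool.Agent.W337.LE.half p m hodd S (by intro x hx; simpa [hS] using hx) h0S hSc
  have hσ' : Half {z : ZMod p | z ≠ 0} σ := by
    have : ((S : Finset (ZMod p)) : Set (ZMod p)) = {z : ZMod p | z ≠ 0} := by
      ext z
      simp [hS]
    rwa [this] at hσ
  obtain ⟨ψ, h1, h2, h3⟩ := Pool.Agent.W337.LE.main p m hodd S S (univ : Finset (ZMod p))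
    (fun _ => σ) h0S h0S hσ hσ
  -- the type of the cross classes
  let τ : ZMod p ≃ (univ : Finset (ZMod p)) :=
    (Equiv.subtypeUnivEquiv fun x => Finset.mem_univ x).symm
  have hinc : ∀ (u : ZMod p × Bool) (i : DD (Fin m) (ZMod p)),
      Pool.Agent.W493.LE.GK.eE p τ (inc (fun _ : Bool => σ) (fun t : ZMod p => t) u i) =
        inc (fun _ : Bool => σ) (fun t : (univ : Finset (ZMod p)) => (t : ZMod p)) u
          (Pool.Agent.W493.LE.GK.dE τ i) :=
    fun u i => Pool.Agent.W493.LE.GK.inc_change τ (fun _ : Bool => σ)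
      (fun t : (univ : Finset (ZMod p)) => (t : ZMod p)) u i
  have ρ : DD (Fin m) (ZMod p) ≃ CC p (Fin (p - 1)) := Fintype.equivOfCardEq (by
    simp only [Fintype.card_sum, Fintype.card_prod, Fintype.card_bool, Fintype.card_fin,
      ZMod.card]
    omega)
  have hNN := sKK p hp2 (Fin m) (Fin (p - 1)) σ hσ' ρ
  have hBC : BC p S S (univ : Finset (ZMod p)) = ⊤ := by
    ext u v
    unfold BC
    rw [SimpleGraph.fromRel_adj, SimpleGraph.top_adj]
    constructor
    · exact fun h => h.1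
    · intro h
      refine ⟨h, ?_⟩
      obtain ⟨x, b⟩ := u
      obtain ⟨y, b'⟩ := v
      have key : b = b' → y - x ∈ S := by
        intro hb
        subst hb
        rw [hS, Finset.mem_erase]
        refine ⟨?_, Finset.mem_univ _⟩
        rw [sub_ne_zero]
        rintro rfl
        exact h rfl
      cases b <;> cases b'
      · exact Or.inl (Or.inl ⟨rfl, rfl, key rfl⟩)
      · exact Or.inl (Or.inr (Or.inr ⟨rfl, rfl, Finset.mem_univ _⟩))
      · exact Or.inr (Or.inr (Or.inr ⟨rfl, rfl, Finset.mem_univ _⟩))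
      · exact Or.inl (Or.inr (Or.inl ⟨rfl, rfl, key rfl⟩))
  have e : ZMod p × Bool ≃ V := Fintype.equivOfCardEq (by
    rw [Fintype.card_prod, ZMod.card, Fintype.card_bool, hV, mul_comm])
  have hcD : Fintype.card (DD (Fin m) (ZMod p)) = 2 * p - 1 := by
    simp only [Fintype.card_sum, Fintype.card_prod, Fintype.card_bool, Fintype.card_fin,
      ZMod.card]
    omega
  have hInc : Inc (BC p S S (univ : Finset (ZMod p)))
      (inc (fun _ : Bool => σ) (fun t : ZMod p => t)) := by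
    refine ⟨(Pool.Agent.W493.LE.GK.eE p τ).trans ψ, ?_, ?_, ?_⟩
    · intro v i
      rw [Equiv.trans_apply, hinc]
      exact h1 v _
    · intro v e he
      rw [Equiv.trans_apply] at he
      obtain ⟨i, hi⟩ := h2 v _ he
      refine ⟨(Pool.Agent.W493.LE.GK.dE τ).symm i, ?_⟩
      apply (Pool.Agent.W493.LE.GK.eE p τ).injective
      rw [hinc, Equiv.apply_symm_apply, hi]
    · intro v i j hij
      have h4 := congrArg (Pool.Agent.W493.LE.GK.eE p τ) hij
      rw [hinc, hinc] at h4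
      exact (Pool.Agent.W493.LE.GK.dE τ).injective (h3 v h4)
  let φ : BC p S S (univ : Finset (ZMod p)) ≃g (⊤ : SimpleGraph V) :=
    ⟨e, by intro a b; rw [hBC]; simp⟩
  exact at_of φ ρ _ hInc hNN _ hcD

end Pool.Agent.Q117.SP
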