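import Pool.Agent.W862.LE.CP

/-!
# Signed numbers of 1-factorizations and star products
-/

set_option autoImplicit false

namespace Pool.Agent.Q117.SP

open Finset Pool.Agent.W426.LE Pool.Agent.W862.LE.Abs

/-- `inc` is obtained from `inc₁` and `inc₂` by deleting the vertices `none` and gluing the `i`-th edges at
these vertices -/
def Star {V W E₁ E₂ E D : Type} (inc₁ : Option V → D → E₁) (inc₂ : Option W → D → E₂)
    (inc : V ⊕ W → D → E) : Prop :=
  Function.Injective (inc₁ none) ∧ Function.Injective (inc₂ none) ∧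
  ∃ (ι₁ : E₁ → E) (ι₂ : E₂ → E), Function.Injective ι₁ ∧ Function.Injective ι₂ ∧
    (∀ e, (∃ e₁, ι₁ e₁ = e) ∨ ∃ e₂, ι₂ e₂ = e) ∧
    (∀ v i, inc (.inl v) i = ι₁ (inc₁ (some v) i)) ∧
    (∀ w i, inc (.inr w) i = ι₂ (inc₂ (some w) i)) ∧
    ∀ e₁ e₂, ι₁ e₁ = ι₂ e₂ ↔ ∃ i, e₁ = inc₁ none i ∧ e₂ = inc₂ none i

section
variable {V E D C : Type} [Fintype V] [Fintype E] [Fintype D] [Fintype C]

open Classical in
lemma even_sum (inc : V → D → E) (h2 : ∀ e, Nat.card {q : V × D // inc q.1 q.2 = e} = 2)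
    (x : E → C) (c : C) : Even (∑ q : V × D, (if x (inc q.1 q.2) = c then 1 else 0 : ℕ)) := by
  have e3 : ∑ q : V × D, (if x (inc q.1 q.2) = c then 1 else 0 : ℕ) =
      ∑ e : E, ∑ q ∈ univ.filter (fun q : V × D => inc q.1 q.2 = e),
        (if x (inc q.1 q.2) = c then 1 else 0 : ℕ) := by
    rw [← Finset.sum_fiberwise univ (fun q : V × D => inc q.1 q.2)]
  rw [e3]
  refine Finset.sum_induction _ Even (fun a b ha hb => ha.add hb) Even.zero ?_
  intro e _
  have e4 : ∑ q ∈ univ.filter (fun q : V × D => inc q.1 q.2 = e),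
        (if x (inc q.1 q.2) = c then 1 else 0 : ℕ) =
      ∑ q ∈ univ.filter (fun q : V × D => inc q.1 q.2 = e), (if x e = c then 1 else 0 : ℕ) := by
    refine Finset.sum_congr rfl fun q hq => ?_
    rw [(mem_filter.1 hq).2]
  have e5 := h2 e
  rw [Nat.card_eq_fintype_card, Fintype.card_subtype] at e5
  rw [e4, Finset.sum_const, smul_eq_mul, e5]
  exact even_two_mul _

open Classical in
/-- every colour occurs at the deleted vertex -/
lemma cut_surj (inc : Option V → D → E)
    (h2 : ∀ e, Nat.card {q : Option V × D // inc q.1 q.2 = e} = 2) (hV : Odd (Fintype.card V))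
    (x : E → C) (hx : ∀ v, Function.Bijective (fun i => x (inc (some v) i))) (c : C) :
    ∃ i, x (inc none i) = c := by
  have h := even_sum inc h2 x c
  rw [Fintype.sum_prod_type, Fintype.sum_option] at h
  have e1 : ∀ v : V, ∑ i : D, (if x (inc (some v) i) = c then 1 else 0 : ℕ) = 1 := by
    intro v
    obtain ⟨i, hi⟩ := (hx v).2 c
    rw [Finset.sum_eq_single i]
    · have : x (inc (some v) i) = c := hi
      rw [if_pos this]
    · intro j _ hj
      rw [if_neg]
      intro h
      exact hj ((hx v).1 (h.trans hi.symm))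
    · intro h
      exact (h (mem_univ _)).elim
  rw [Finset.sum_congr rfl fun v _ => e1 v, Finset.sum_const, smul_eq_mul, mul_one,
    Finset.card_univ] at h
  by_contra hcon
  push Not at hcon
  rw [Finset.sum_eq_zero fun i _ => if_neg (hcon i), zero_add] at h
  exact (Nat.not_even_iff_odd.2 hV) h

end

section
variable {V W E₁ E₂ E D C : Type} [Fintype V] [Fintype W] [Fintype E₁] [Fintype E₂] [Fintype E]
  [Fintype D] [Fintype C] (ρ : D ≃ C) {inc₁ : Option V → D → E₁} {inc₂ : Option W → D → E₂}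
  {inc : V ⊕ W → D → E}

open Classical in
theorem star_NN (hs : Star inc₁ inc₂ inc)
    (h1 : ∀ e, Nat.card {q : Option V × D // inc₁ q.1 q.2 = e} = 2)
    (h2 : ∀ e, Nat.card {q : Option W × D // inc₂ q.1 q.2 = e} = 2)
    (h3 : ∀ e, Nat.card {q : (V ⊕ W) × D // inc q.1 q.2 = e} = 2)
    (hV : Odd (Fintype.card V)) :
    ((Fintype.card C).factorial : ℤ) * NN ρ inc = NN ρ inc₁ * NN ρ inc₂ := by
  obtain ⟨hn1, hn2, ι₁, ι₂, hi1, hi2, hcov, hl, hr, hglue⟩ := hs
  have hc : ∀ i, ι₁ (inc₁ none i) = ι₂ (inc₂ none i) := fun i => (hglue _ _).2 ⟨i, rfl, rfl⟩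
  -- the cut edges get all colours
  have hcut : ∀ x : E → C, Prp inc x → Function.Bijective (fun i => x (ι₁ (inc₁ none i))) := by
    intro x hx
    have hsurj : Function.Surjective (fun i => x (ι₁ (inc₁ none i))) := by
      intro c
      refine cut_surj inc₁ h1 hV (fun e => x (ι₁ e)) (fun v => ?_) c
      have := hx (.inl v)
      simp only [hl] at this
      exact this
    rw [Fintype.bijective_iff_surjective_and_card]
    exact ⟨hsurj, Fintype.card_congr ρ⟩
  let XC : Type := {x : E → C // Prp inc x ∧ ∀ i, x (ι₁ (inc₁ none i)) = ρ i}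
  let π : ∀ x : E → C, Prp inc x → Equiv.Perm C := fun x hx =>
    ρ.symm.trans (Equiv.ofBijective _ (hcut x hx))
  have hπ : ∀ x hx i, π x hx (ρ i) = x (ι₁ (inc₁ none i)) := by
    intro x hx i
    show x (ι₁ (inc₁ none (ρ.symm (ρ i)))) = _
    rw [ρ.symm_apply_apply]
  have e0 : NN ρ inc = ∑ x : E → C, wt ρ inc x := by
    unfold NN
    refine Finset.sum_congr ?_ fun x _ => rfl
    ext x
    simp only [mem_univ]
  have e2 : ∑ q : Equiv.Perm C × XC, wt ρ inc (fun e => q.1 (q.2.1 e)) =
      ∑ x : E → C, wt ρ inc x := by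
    refine Finset.sum_of_injOn (fun q : Equiv.Perm C × XC => fun e => q.1 (q.2.1 e))
      ?_ ?_ ?_ ?_
    · rintro ⟨σ, z⟩ _ ⟨σ', z'⟩ _ h
      have h' : ∀ e, σ (z.1 e) = σ' (z'.1 e) := fun e => congrFun h e
      have hσ : σ = σ' := by
        refine Equiv.ext fun c => ?_
        have h4 := h' (ι₁ (inc₁ none (ρ.symm c)))
        rwa [z.2.2, z'.2.2, ρ.apply_symm_apply] at h4
      subst hσ
      have hz : z = z' := Subtype.ext (funext fun e => σ.injective (h' e))
      rw [hz]
    · intro q _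
      exact mem_coe.2 (mem_univ _)
    · intro x _ hx
      by_contra hne
      have hp : Prp inc x := (wt_ne_zero_iff ρ inc x).1 hne
      refine hx ⟨(π x hp, ⟨fun e => (π x hp).symm (x e), prp_comp inc x hp _, fun i =>
        (Equiv.symm_apply_eq _).2 (hπ x hp i).symm⟩), mem_coe.2 (mem_univ _), ?_⟩
      funext e
      exact (π x hp).apply_symm_apply _
    · intro q _
      rfl
  have e3 : NN ρ inc = (Fintype.card C).factorial * ∑ z : XC, wt ρ inc z.1 := by
    rw [e0, ← e2, Fintype.sum_prod_type]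
    have e4 : ∀ σ : Equiv.Perm C, ∑ z : XC, wt ρ inc (fun e => σ (z.1 e)) =
        ∑ z : XC, wt ρ inc z.1 := fun σ =>
      Finset.sum_congr rfl fun z _ => wt_perm ρ inc h3 z.1 z.2.1 σ
    rw [Finset.sum_congr rfl fun σ _ => e4 σ, Finset.sum_const, Finset.card_univ,
      Fintype.card_perm, nsmul_eq_mul]
  -- restriction to the two sides
  let F : XC → XN ρ inc₁ none × XN ρ inc₂ none := fun z =>
    (⟨fun e => z.1 (ι₁ e), fun v => by
        cases v with
        | none =>
          have : (fun i => z.1 (ι₁ (inc₁ none i))) = ρ := funext z.2.2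
          rw [this]
          exact ρ.bijective
        | some v =>
          have := z.2.1 (.inl v)
          simp only [hl] at this
          exact this, z.2.2⟩,
      ⟨fun e => z.1 (ι₂ e), fun v => by
        cases v with
        | none =>
          have : (fun i => z.1 (ι₂ (inc₂ none i))) = ρ := funext fun i => by
            rw [← hc]; exact z.2.2 i
          rw [this]
          exact ρ.bijective
        | some v =>
          have := z.2.1 (.inr v)
          simp only [hr] at this
          exact this, fun i => by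
          show z.1 (ι₂ (inc₂ none i)) = ρ i
          rw [← hc]; exact z.2.2 i⟩)
  have hF : Function.Bijective F := by
    constructor
    · intro z z' h
      refine Subtype.ext (funext fun e => ?_)
      have a1 : ∀ e, z.1 (ι₁ e) = z'.1 (ι₁ e) := fun e =>
        congrFun (congrArg Subtype.val (congrArg Prod.fst h)) e
      have a2 : ∀ e, z.1 (ι₂ e) = z'.1 (ι₂ e) := fun e =>
        congrFun (congrArg Subtype.val (congrArg Prod.snd h)) e
      rcases hcov e with ⟨e₁, rfl⟩ | ⟨e₂, rfl⟩
      · exact a1 _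
      · exact a2 _
    · rintro ⟨z₁, z₂⟩
      have hx : ∀ e, ∃ c, (∀ e₁, ι₁ e₁ = e → z₁.1 e₁ = c) ∧ (∀ e₂, ι₂ e₂ = e → z₂.1 e₂ = c) := by
        intro e
        have agree : ∀ e₁ e₂, ι₁ e₁ = ι₂ e₂ → z₁.1 e₁ = z₂.1 e₂ := by
          intro e₁ e₂ he
          obtain ⟨i, rfl, rfl⟩ := (hglue _ _).1 he
          rw [z₁.2.2, z₂.2.2]
        rcases hcov e with ⟨e₁, rfl⟩ | ⟨e₂, rfl⟩
        · refine ⟨z₁.1 e₁, fun e₁' h => by rw [hi1 h], fun e₂ h => (agree _ _ h.symm).symm⟩
        · refine ⟨z₂.1 e₂, fun e₁ h => agree _ _ h, fun e₂' h => by rw [hi2 h]⟩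
      choose x hx1 hx2 using hx
      have b1 : ∀ e, x (ι₁ e) = z₁.1 e := fun e => (hx1 _ e rfl).symm
      have b2 : ∀ e, x (ι₂ e) = z₂.1 e := fun e => (hx2 _ e rfl).symm
      refine ⟨⟨x, fun v => ?_, fun i => by rw [b1, z₁.2.2]⟩, ?_⟩
      · rcases v with v | w
        · simp only [hl, b1]
          exact z₁.2.1 (some v)
        · simp only [hr, b2]
          exact z₂.2.1 (some w)
      · exact Prod.ext (Subtype.ext (funext b1)) (Subtype.ext (funext b2))
  have e5 : ∀ z : XC, wt ρ inc z.1 = wt ρ inc₁ (F z).1.1 * wt ρ inc₂ (F z).2.1 := by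
    intro z
    unfold wt
    rw [Fintype.prod_sum_type, Fintype.prod_option, Fintype.prod_option]
    have s1 : sg ρ (fun i => (F z).1.1 (inc₁ none i)) = 1 := by
      have : (fun i => (F z).1.1 (inc₁ none i)) = (ρ : D → C) := funext (F z).1.2.2
      rw [this, sg_equiv, Equiv.self_trans_symm]
      simp
    have s2 : sg ρ (fun i => (F z).2.1 (inc₂ none i)) = 1 := by
      have : (fun i => (F z).2.1 (inc₂ none i)) = (ρ : D → C) := funext (F z).2.2.2
      rw [this, sg_equiv, Equiv.self_trans_symm]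
      simp
    rw [s1, s2, one_mul, one_mul]
    congr 1
    · refine Finset.prod_congr rfl fun v _ => ?_
      simp only [hl]
      rfl
    · refine Finset.prod_congr rfl fun v _ => ?_
      simp only [hr]
      rfl
  have e6 : ∑ z : XC, wt ρ inc z.1 =
      (∑ z : XN ρ inc₁ none, wt ρ inc₁ z.1) * ∑ z : XN ρ inc₂ none, wt ρ inc₂ z.1 := by
    rw [Finset.sum_mul_sum, ← Fintype.sum_prod_type']
    exact Fintype.sum_bijective F hF _ _ e5
  rw [e3, e6, NN_eq ρ inc₁ none h1, NN_eq ρ inc₂ none h2]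
  ring

end

end Pool.Agent.Q117.SP
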