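import Pool.Agent.Q117.SP.Core

/-!
# Independence of the signed number of the description
-/

set_option autoImplicit false

namespace Pool.Agent.Q117.SP

open Finset Pool.Agent.W426.LE Pool.Agent.W862.LE.Abs

lemma sg_post {D C C' : Type} [Fintype D] (ρ : D ≃ C) (γ : C ≃ C') (f : D → C) :
    sg (ρ.trans γ) (fun i => γ (f i)) = sg ρ f := by
  classical
  by_cases h : Function.Bijective f
  · obtain ⟨e, rfl⟩ := exists_equiv f h
    have : (fun i => γ (e i)) = ((e.trans γ : D ≃ C') : D → C') := rfl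
    rw [this, sg_equiv, sg_equiv]
    have h2 : (e.trans γ).trans (ρ.trans γ).symm = e.trans ρ.symm := by
      ext i; simp
    rw [h2]
  · have h' : ¬ Function.Bijective (fun i => γ (f i)) := by
      intro h2; apply h
      have := (γ.symm.bijective.comp h2)
      have h3 : (γ.symm ∘ (fun i => γ (f i))) = f := by ext i; simp
      rwa [h3] at this
    rw [sg_of_not ρ f h, sg_of_not _ _ h']

section
variable {V V' E E' D D' C C' : Type} [Fintype V] [Fintype V'] [Fintype E] [Fintype E']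
  [Fintype D] [Fintype D'] [Fintype C] [Fintype C']

open Classical in
theorem NN_iso (ρ : D ≃ C) (ρ' : D' ≃ C') (l : D ≃ D') (inc : V → D → E) (inc' : V' → D' → E')
    (α : V ≃ V') (β : E ≃ E') (τ : V → (D ≃ D'))
    (h : ∀ v i, inc' (α v) (τ v i) = β (inc v i)) (hN : NN ρ inc ≠ 0) : NN ρ' inc' ≠ 0 := by
  let γ : C ≃ C' := ρ.symm.trans (l.trans ρ')
  have hγ : l.trans ρ' = ρ.trans γ := by ext i; simp [γ]
  let Θ : (E → C) ≃ (E' → C') := β.arrowCongr γ
  have e1 : ∀ (x : E → C) (v : V), sg ρ' (fun i => Θ x (inc' (α v) i)) =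
      ((Equiv.Perm.sign (l.trans (τ v).symm) : ℤˣ) : ℤ) * sg ρ (fun i => x (inc v i)) := by
    intro x v
    rw [← sg_comp_equiv ρ' _ l, hγ]
    have e2 : (fun i => Θ x (inc' (α v) (l i))) =
        fun i => γ (x (inc v ((l.trans (τ v).symm) i))) := by
      funext i
      have h1 := h v ((τ v).symm (l i))
      rw [Equiv.apply_symm_apply] at h1
      rw [h1]
      show γ (x (β.symm (β (inc v ((τ v).symm (l i)))))) = _
      rw [Equiv.symm_apply_apply]
      rfl
    rw [e2, sg_post ρ γ (fun i => x (inc v ((l.trans (τ v).symm) i)))]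
    exact sg_comp_perm ρ (fun i => x (inc v i)) (l.trans (τ v).symm)
  have e3 : NN ρ' inc' = (∏ v, ((Equiv.Perm.sign (l.trans (τ v).symm) : ℤˣ) : ℤ)) * NN ρ inc := by
    unfold NN
    rw [← Equiv.sum_comp Θ, Finset.mul_sum]
    refine Finset.sum_congr rfl fun x _ => ?_
    rw [← Equiv.prod_comp α, ← Finset.prod_mul_distrib]
    exact Finset.prod_congr rfl fun v _ => e1 x v
  rw [e3]
  refine mul_ne_zero (Finset.prod_ne_zero_iff.2 fun v _ => Units.ne_zero _) hN

end

/-- `inc` describes the regular simple graph `G` -/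
def Inc {V E D : Type} (G : SimpleGraph V) (inc : V → D → E) : Prop :=
  ∃ ψ : E ≃ G.edgeSet, (∀ v i, v ∈ (ψ (inc v i) : Sym2 V)) ∧
    (∀ v e, v ∈ (ψ e : Sym2 V) → ∃ i, inc v i = e) ∧ ∀ v, Function.Injective (inc v)

section
variable {V V' E E' D D' C C' : Type} [Fintype V] [Fintype V'] [Fintype E] [Fintype E']
  [Fintype D] [Fintype D'] [Fintype C] [Fintype C']

lemma Inc.iso {G : SimpleGraph V} {G' : SimpleGraph V'} (φ : G ≃g G') {inc : V → D → E}
    {inc' : V' → D' → E'} (h : Inc G inc) (h' : Inc G' inc') :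
    ∃ (β : E ≃ E') (τ : V → (D ≃ D')), ∀ v i, inc' (φ v) (τ v i) = β (inc v i) := by
  classical
  obtain ⟨ψ, h1, h2, h3⟩ := h
  obtain ⟨ψ', h1', h2', h3'⟩ := h'
  let β : E ≃ E' := (ψ.trans φ.mapEdgeSet).trans ψ'.symm
  have hβ : ∀ e, (ψ' (β e) : Sym2 V') = Sym2.map φ (ψ e : Sym2 V) := by
    intro e
    show (ψ' (ψ'.symm (φ.mapEdgeSet (ψ e))) : Sym2 V') = _
    rw [Equiv.apply_symm_apply]
    rfl
  have hex : ∀ v i, ∃ i', inc' (φ v) i' = β (inc v i) := by
    intro v i
    refine h2' _ _ ?_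
    rw [hβ, Sym2.mem_map]
    exact ⟨v, h1 v i, rfl⟩
  choose t ht using hex
  have hbij : ∀ v, Function.Bijective (t v) := by
    intro v
    constructor
    · intro i j hij
      apply h3 v
      apply β.injective
      rw [← ht, ← ht, hij]
    · intro i'
      have h4 : v ∈ (ψ (β.symm (inc' (φ v) i')) : Sym2 V) := by
        have h5 := hβ (β.symm (inc' (φ v) i'))
        rw [Equiv.apply_symm_apply] at h5
        have h6 := h1' (φ v) i'
        rw [h5, Sym2.mem_map] at h6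
        obtain ⟨w, hw, hwv⟩ := h6
        have h7 : w = v := φ.injective hwv
        rw [h7] at hw
        exact hw
      obtain ⟨i, hi⟩ := h2 _ _ h4
      refine ⟨i, h3' (φ v) ?_⟩
      rw [ht, hi, Equiv.apply_symm_apply]
  exact ⟨β, fun v => Equiv.ofBijective _ (hbij v), fun v i => ht v i⟩

end

/-- the signed number of the complete graph on `p + 1` vertices -/
theorem complete_NN (p : ℕ) [Fact p.Prime] (hp2 : p ≠ 2) {V E : Type} [Fintype V] [Fintype E]
    (hV : Fintype.card V = p + 1) (inc : V → Fin p → E) (h : Inc (⊤ : SimpleGraph V) inc) :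
    NN (Equiv.refl (Fin p)) inc ≠ 0 := by
  classical
  have hpp : p.Prime := Fact.out
  obtain ⟨m, hm⟩ := hpp.odd_of_ne_two hp2
  obtain ⟨g, hg'⟩ := Pool.Agent.W337.LE.half p m (hpp.odd_of_ne_two hp2) (univ.erase (0 : ZMod p))
    (fun x hx => mem_erase.2 ⟨neg_ne_zero.2 (mem_erase.1 hx).1, mem_univ _⟩)
    (fun h => (mem_erase.1 h).1 rfl)
    (by rw [card_erase_of_mem (mem_univ _), Finset.card_univ, ZMod.card]; omega)
  have hset : ((univ.erase (0 : ZMod p) : Finset (ZMod p)) : Set (ZMod p)) = {z | z ≠ 0} := by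
    ext z
    simp
  rw [hset] at hg'
  have hg : ∀ i, g i ≠ 0 := by
    intro i
    have h4 := hg'.mapsTo (Set.mem_univ (i, true))
    simpa using h4
  have ρ : Option (Fin m × Bool) ≃ ZMod p := Fintype.equivOfCardEq (by
    simp only [Fintype.card_option, Fintype.card_prod, Fintype.card_bool, Fintype.card_fin,
      ZMod.card]
    omega)
  let ψ : Pool.Agent.W862.LE.KP.KE p (Fin m) ≃ (⊤ : SimpleGraph (Option (ZMod p))).edgeSet :=
    Equiv.ofBijective (Pool.Agent.W862.LE.CP.psi0 g hg) (Pool.Agent.W862.LE.CP.psi_bij g hg hg')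
  have h1 : ∀ v i, v ∈ (ψ (Pool.Agent.W862.LE.KP.kinc ρ g v i) : Sym2 (Option (ZMod p))) :=
    fun v i => Pool.Agent.W862.LE.CP.psi_h1 ρ g hg v i
  have h2 : ∀ v e, v ∈ (ψ e : Sym2 (Option (ZMod p))) →
      ∃ i, Pool.Agent.W862.LE.KP.kinc ρ g v i = e := fun v e hv =>
    Pool.Agent.W862.LE.CP.psi_h2 ρ g hg v e hv
  have h3 := Pool.Agent.W862.LE.CP.psi_h3 ρ g hg
  have hN : NN ρ (Pool.Agent.W862.LE.KP.kinc ρ g) ≠ 0 := by
    refine Pool.Agent.W862.LE.KP.kNN ρ g hp2 (fun e => ?_) hg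
    exact Pool.Agent.W862.LE.natcard_of _ _ _
      (Pool.Agent.W15.LEGR.card_two (Pool.Agent.W862.LE.KP.kinc ρ g) _ ψ h1 h2 h3 e)
  have hcard : Fintype.card (Option (ZMod p)) = Fintype.card V := by
    rw [hV, Fintype.card_option, ZMod.card]
  let α : Option (ZMod p) ≃ V := Fintype.equivOfCardEq hcard
  let φ : (⊤ : SimpleGraph (Option (ZMod p))) ≃g (⊤ : SimpleGraph V) :=
    ⟨α, by intro a b; simp⟩
  obtain ⟨β, τ, hβ⟩ := Inc.iso φ ⟨ψ, h1, h2, h3⟩ h
  have l : Option (Fin m × Bool) ≃ Fin p := τ none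
  exact NN_iso ρ (Equiv.refl (Fin p)) l _ inc α β τ hβ hN

end Pool.Agent.Q117.SP
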